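import Pool.Agent.P.MP_8b3519_lc.CyMain

open Pool.Agent.P.MP_8b3519_lc

/-- There is a family of Borel complete classes, indexed by the subsets of `ℕ`, whose groupoids are
ordered by Borel reducibility exactly as the index sets are ordered by inclusion. -/
theorem Pool.Agent.Results.MP_8b3519_lc.Continuum.result :
    ∃ (L : FirstOrder.Language.{0, 0}) (D : Set ℕ → Cls L), Countable L.Symbols ∧
      (∀ P : Set ℕ, BorelComplete (D P)) ∧
        ∀ P Q : Set ℕ, GroupoidReduces (D P) (D Q) ↔ P ⊆ Q :=
  ⟨LL, clsCy, countable_LL, complete_cy, fun _ _ => ⟨subset_of_reduces, reduces_of_subset⟩⟩
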