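import Pool.Agent.P.MP_8b3519_lc.LoMain

open Pool.Agent.P.MP_8b3519_lc

/-- If the groupoid of a class of graphs containing all trees Borel reduces to the groupoid of a
class `D`, then for every countable family of Borel invariant relations on `D` some member of `D`
has an infinite totally indiscernible set. So there is no such reduction to linear orders. -/
theorem Pool.Agent.Results.MP_8b3519_lc.LinearOrders.result
    (C : Cls FirstOrder.Language.graph)
    (hC : ∀ T : SimpleGraph ℕ, T.IsTree → T.structure ∈ C.carrier)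
    (L : FirstOrder.Language.{0, 0}) (hL : Countable L.Symbols) (D : Cls L)
    (h : GroupoidReduces C D)
    (ar : ℕ → ℕ) (R : ∀ m : ℕ, D.carrier → (Fin (ar m) → ℕ) → Prop)
    (hmeas : ∀ (m : ℕ) (v : Fin (ar m) → ℕ), MeasurableSet {M : D.carrier | R m M v})
    (hinv : ∀ (m : ℕ) (g : Equiv.Perm ℕ) (M : D.carrier) (v : Fin (ar m) → ℕ),
      R m (D.act g M) (g ∘ v) ↔ R m M v) :
    ∃ (M : D.carrier) (a : ℕ → ℕ), Function.Injective a ∧
      ∀ (m : ℕ) (u v : Fin (ar m) → ℕ), Function.Injective u → Function.Injective v →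
        (R m M (a ∘ u) ↔ R m M (a ∘ v)) :=
  indisc_of_reduces C hC D h ar R hmeas hinv
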